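import Mathlib

/-!
# An autocharacterized open direct summand of finite index which is not T-characterized
-/

namespace Pool.Agent.Results.MP_67c2f3_gt.NotTCharacterized

open Filter Topology

/-- The characters of a topological abelian group: continuous homomorphisms to `ℝ / ℤ`,
under pointwise addition. -/
abbrev Chars (X : Type*) [AddCommGroup X] [TopologicalSpace X] := X →ₜ+ UnitAddCircle

/-- `s_v(X)`, the set of `x` with `v_n(x) → 0`. -/
def sv {X : Type*} [AddCommGroup X] [TopologicalSpace X] (v : ℕ → Chars X) : Set X :=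
  {x | Tendsto (fun n => v n x) atTop (𝓝 0)}

/-- `v` is a T-sequence in the abstract abelian group `A`: it converges to `0` in some
Hausdorff group topology. -/
def IsTSequence {A : Type*} [AddCommGroup A] (v : ℕ → A) : Prop :=
  ∃ t : TopologicalSpace A, @IsTopologicalAddGroup A t _ ∧ @T2Space A t ∧
    Tendsto v atTop (@nhds A t 0)

/-- `H` is T-characterized in `X`. -/
def TCharacterized {X : Type*} [AddCommGroup X] [TopologicalSpace X] (H : AddSubgroup X) :
    Prop :=
  ∃ v : ℕ → Chars X, IsTSequence v ∧ (H : Set X) = sv v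

/-- `Y` is autocharacterized: `Y = s_u(Y)` for some `u` which is not eventually `0`. -/
def Autocharacterized (Y : Type*) [AddCommGroup Y] [TopologicalSpace Y] : Prop :=
  ∃ u : ℕ → Chars Y, ¬ (∀ᶠ n in atTop, u n = 0) ∧ sv u = Set.univ

/-- `H` is a topological direct summand of `X`. -/
def IsTopDirectSummand {X : Type*} [AddCommGroup X] [TopologicalSpace X] (H : AddSubgroup X) :
    Prop :=
  ∃ Z : AddSubgroup X, IsHomeomorph (fun p : H × Z => (p.1 : X) + (p.2 : X))

/-- the finitely supported elements of `(ZMod 2) ^ ℕ`. -/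
def FinSupp : AddSubgroup (ℕ → ZMod 2) where
  carrier := {x | (Function.support x).Finite}
  zero_mem' := by simp
  add_mem' := fun {a b} ha hb => (ha.union hb).subset (Function.support_add a b)
  neg_mem' := fun {a} ha => by simpa using ha

/-- the ambient group `FinSupp × ZMod 4`. -/
abbrev X4 : Type := FinSupp × ZMod 4

/-- the open subgroup `FinSupp × 0`. -/
def H4 : AddSubgroup X4 := (AddMonoidHom.snd FinSupp (ZMod 4)).ker

theorem mem_H4 {x : X4} : x ∈ H4 ↔ x.2 = 0 := Iff.rfl

theorem unique_order_two {c c' : UnitAddCircle} (hc : 2 • c = 0) (hc' : 2 • c' = 0)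
    (h : c ≠ 0) (h' : c' ≠ 0) : c = c' := by
  obtain ⟨m, hm, hm2⟩ := (AddCircle.nsmul_eq_zero_iff (by norm_num)).1 hc
  obtain ⟨m', hm', hm2'⟩ := (AddCircle.nsmul_eq_zero_iff (by norm_num)).1 hc'
  have e : m = 1 := by
    interval_cases m
    · exact absurd (by simpa using hm2.symm) h
    · rfl
  have e' : m' = 1 := by
    interval_cases m'
    · exact absurd (by simpa using hm2'.symm) h'
    · rfl
  rw [← hm2, ← hm2', e, e']

theorem two_nsmul_fin (a : FinSupp) : 2 • a = 0 := by
  ext n
  have : ∀ z : ZMod 2, 2 • z = 0 := by decide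
  exact this _

/-- the character of `H4` reading the `n`-th coordinate. -/
noncomputable def coordChar (n : ℕ) : Chars H4 where
  toFun x := ZMod.toAddCircle ((x.1.1 : ℕ → ZMod 2) n)
  map_zero' := by simp
  map_add' x y := by simp
  continuous_toFun := by
    refine (continuous_of_discreteTopology (f := (ZMod.toAddCircle : ZMod 2 → _))).comp ?_
    exact (continuous_apply n).comp
      (continuous_subtype_val.comp (continuous_fst.comp continuous_subtype_val))

theorem auto_H4 : Autocharacterized H4 := by
  refine ⟨coordChar, ?_, ?_⟩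
  · intro h
    obtain ⟨n, hn⟩ := h.exists
    have hx : (Pi.single n 1 : ℕ → ZMod 2) ∈ FinSupp := by
      change (Function.support _).Finite
      exact (Set.finite_singleton n).subset Pi.support_single_subset
    have h1 : coordChar n ⟨(⟨Pi.single n 1, hx⟩, 0), rfl⟩ = 0 := by rw [hn]; rfl
    have h2 : ZMod.toAddCircle ((Pi.single n 1 : ℕ → ZMod 2) n) = 0 := h1
    rw [Pi.single_eq_same, ZMod.toAddCircle_eq_zero] at h2
    exact absurd h2 (by decide)
  · ext x
    simp only [Set.mem_univ, iff_true]
    change Tendsto (fun n => coordChar n x) atTop (𝓝 0)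
    refine tendsto_const_nhds.congr' ?_
    have hfin : (Function.support (x.1.1 : ℕ → ZMod 2)).Finite := x.1.1.2
    obtain ⟨N, hN⟩ := hfin.bddAbove
    filter_upwards [eventually_gt_atTop N] with n hn
    have : (x.1.1 : ℕ → ZMod 2) n = 0 := by
      by_contra hne
      exact absurd (hN hne) (not_le.2 hn)
    change 0 = ZMod.toAddCircle ((x.1.1 : ℕ → ZMod 2) n)
    rw [this, map_zero]

theorem summand_H4 : IsTopDirectSummand H4 := by
  refine ⟨(AddMonoidHom.fst FinSupp (ZMod 4)).ker, ?_⟩
  rw [isHomeomorph_iff_exists_inverse]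
  refine ⟨by fun_prop, fun x => (⟨(x.1, 0), rfl⟩, ⟨(0, x.2), rfl⟩), ?_, ?_, ?_⟩
  · rintro ⟨⟨⟨a, b⟩, h⟩, ⟨⟨c, d⟩, h'⟩⟩
    have h1 : b = 0 := h
    have h2 : c = 0 := h'
    subst h1 h2
    simp
  · rintro ⟨a, b⟩
    simp
  · refine Continuous.prodMk ?_ ?_
    · exact Continuous.subtype_mk (by fun_prop) _
    · exact Continuous.subtype_mk (by fun_prop) _

theorem not_T : ¬ TCharacterized H4 := by
  rintro ⟨v, ⟨t, _, ht2, hv⟩, hH⟩
  -- the values `c n = v_n (0, 2)`
  have hfour : ∀ n, (2 : ℕ) • (v n (0, 2)) = 0 := by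
    intro n
    rw [← map_nsmul]
    have : (2 : ℕ) • ((0, 2) : X4) = 0 := by
      refine Prod.ext (by simp) ?_
      change (2 : ℕ) • (2 : ZMod 4) = 0
      decide
    rw [this, map_zero]
  have hval : ∀ n (x : X4), ((2 : ℕ) • v n) x = x.2.val • v n (0, 2) := by
    intro n x
    have h1 : ((2 : ℕ) • v n) x = v n ((2 : ℕ) • x) := by
      rw [map_nsmul, two_nsmul, two_nsmul]; rfl
    have h2 : (2 : ℕ) • x = x.2.val • ((0, 2) : X4) := by
      refine Prod.ext ?_ ?_
      · change (2 : ℕ) • x.1 = x.2.val • (0 : FinSupp)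
        rw [two_nsmul_fin, smul_zero]
      · change (2 : ℕ) • x.2 = x.2.val • (2 : ZMod 4)
        rw [nsmul_eq_mul, nsmul_eq_mul, ZMod.natCast_val, ZMod.cast_id', id]
        push_cast
        ring
    rw [h1, h2, map_nsmul]
  have hdbl : Tendsto (fun n => (2 : ℕ) • v n) atTop (@nhds _ t 0) := by
    have := hv.add hv
    simpa [two_nsmul] using this
  have hev : ∀ᶠ n in atTop, v n (0, 2) = 0 := by
    by_contra hne
    obtain ⟨n₀, hn₀⟩ := (Filter.not_eventually.1 hne).exists
    have hw : (2 : ℕ) • v n₀ ≠ 0 := by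
      intro h0
      have := hval n₀ (0, 1)
      rw [h0] at this
      apply hn₀
      have h1 : ((1 : ZMod 4)).val = 1 := rfl
      simpa [h1] using this.symm
    have hcl : {(2 : ℕ) • v n₀}ᶜ ∈ (@nhds _ t 0) :=
      (isOpen_compl_singleton (X := Chars X4)).mem_nhds (fun h => hw (by simpa using h.symm))
    have hfr : ∃ᶠ n in atTop, (2 : ℕ) • v n = (2 : ℕ) • v n₀ := by
      refine (Filter.not_eventually.1 hne).mono fun n hn => ?_
      ext x
      rw [hval, hval, unique_order_two (hfour n) (hfour n₀) hn hn₀]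
    obtain ⟨n, hn1, hn2⟩ := (hfr.and_eventually (hdbl.eventually hcl)).exists
    exact hn2 hn1
  have hmem : ((0, 2) : X4) ∈ sv v := by
    refine tendsto_const_nhds.congr' ?_
    filter_upwards [hev] with n hn using hn.symm
  rw [← hH] at hmem
  have : (2 : ZMod 4) = 0 := hmem
  exact absurd this (by decide)

/-- **Q1 and Q2 are false**: there are a Hausdorff topological abelian group `X` and an open
subgroup `H` of finite index which is autocharacterized and a topological direct summand, but
not T-characterized. -/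
theorem result : ∃ (X : Type) (_ : AddCommGroup X) (_ : TopologicalSpace X)
    (_ : IsTopologicalAddGroup X) (_ : T2Space X) (H : AddSubgroup X),
    IsOpen (H : Set X) ∧ H.index ≠ 0 ∧ Autocharacterized H ∧ IsTopDirectSummand H ∧
      ¬ TCharacterized H := by
  refine ⟨X4, inferInstance, inferInstance, inferInstance, inferInstance, H4, ?_, ?_,
    auto_H4, summand_H4, not_T⟩
  · have : (H4 : Set X4) = Prod.snd ⁻¹' {0} := rfl
    rw [this]
    exact (isOpen_discrete _).preimage continuous_snd
  · have : (AddMonoidHom.snd FinSupp (ZMod 4)).ker.FiniteIndex := inferInstance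
    exact this.index_ne_zero

end Pool.Agent.Results.MP_67c2f3_gt.NotTCharacterized
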